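import Pool.Agent.helper23.F2.Spec

/-!
# MP_26dbae_co (S07735), module SUB: parts of a graph
-/

set_option autoImplicit false

namespace Pool.Agent.F2

open Pool.Agent.helper23.TH

theorem SUB : SUB_stmt := by
  classical
  intro H₁ H₂ a hE hS b s
  obtain ⟨f, g, hf, hg, hc, he⟩ := hE
  obtain ⟨K, hK, h⟩ := hS b s
  refine ⟨K, hK, ?_⟩
  intro V L _ _ G hV hsum
  obtain ⟨φ, hφ, hs⟩ := h V L G hV hsum
  have hlab : ∀ o, G.lab H₁ (fun w => φ (f w)) o = G.lab H₂ φ (Sum.map f g o) := by
    rintro (w | e)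
    · rfl
    · simp only [LG.lab, Sum.map_inr]
      rcases he e with h1 | h1
      · rw [h1]
      · rw [h1]
        exact G.lsymm _ _
  refine ⟨fun w => φ (f w), ⟨?_, ?_⟩, ?_⟩
  · intro e
    have h2 := hφ.adj (g e)
    rcases he e with h1 | h1
    · rw [h1] at h2
      exact h2
    · rw [h1] at h2
      exact G.symm _ _ h2
  · intro o o' hoo
    rw [hlab, hlab]
    exact hφ.dis _ _ fun h3 => hoo ((Function.Injective.sumMap hf hg) h3)
  · rcases hs with h1 | h1
    · exact Or.inl fun w => by
        show G.c (φ (f w)) = _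
        rw [h1, hc]
    · exact Or.inr fun w => by
        show G.c (φ (f w)) = _
        rw [h1, hc]

end Pool.Agent.F2
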